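import Pool.Agent.H625.Tr.Final
import Pool.Agent.H625.Tr.Ground
import Pool.Graph.R_seed8.TH773.PSet.Ground

/-!
# Martin's Axiom and a cover of `ω*` by nowhere dense P-sets

From a measurable cardinal `κ` we get a preordered set `P` of forcing conditions with the countable
chain condition such that every condition forces that Martin's Axiom holds, that the continuum is
`κ` (so the continuum hypothesis fails), that all cardinals are preserved, and that `ω*` can be
covered by nowhere dense P-sets.

A sentence of the forcing language of `P` is represented by the set of the conditions which force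
it. Negation, conjunction and universal quantification are the primitive connectives, with their
usual forcing clauses; the other connectives are defined from them classically. A name for a subset
of a ground model set `X` is a map sending `x : X` to a set of conditions; `meets N` is the
sentence saying that the generic filter meets the set `N` of conditions. Every subset of a ground
model set in the extension, and every family of subsets of `ω` in the extension, has a name of the
kind used here. Every set of size less than `κ` of the extension is, in the extension, in bijection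
with a set of size less than `κ` of the ground model, so it is enough to state Martin's Axiom for
preorders whose underlying set is a ground model set.
-/

set_option autoImplicit false

namespace Pool.Agent.Results.MP_c5d73d_lc.ConsistentFromMeasurable

open Cardinal

universe v

/-! ### The forcing language -/

section Language

variable {P : Type} [Preorder P]

/-- `p` forces `not φ` iff no `q ≤ p` forces `φ`. -/
def fnot (φ : Set P) : Set P := {p | ∀ q ≤ p, q ∉ φ}

/-- `p` forces `φ and ψ` iff it forces both. -/
def fand (φ ψ : Set P) : Set P := {p | p ∈ φ ∧ p ∈ ψ}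

/-- `p` forces `for all i, φ i` iff it forces every `φ i`. -/
def fall {ι : Sort v} (φ : ι → Set P) : Set P := {p | ∀ i, p ∈ φ i}

/-- `φ implies ψ` is `not (φ and not ψ)`. -/
def fimp (φ ψ : Set P) : Set P := fnot (fand φ (fnot ψ))

/-- `φ or ψ` is `not (not φ and not ψ)`. -/
def disj (φ ψ : Set P) : Set P := fnot (fand (fnot φ) (fnot ψ))

/-- `there is i with φ i` is `not for all i, not φ i`. -/
def fex {ι : Sort v} (φ : ι → Set P) : Set P := fnot (fall fun i => fnot (φ i))

/-- An absolute statement about ground model objects. -/
def fground (h : Prop) : Set P := {_p | h}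

/-- `p` forces that the generic filter meets the set `N` of conditions:
the set of `r` lying below some member of `N` is dense below `p`. -/
def meets (N : Set P) : Set P := {p | ∀ q ≤ p, ∃ r ≤ q, ∃ s ∈ N, r ≤ s}

/-- The relation named by `R` is a function from `X` to `Y`. -/
def IsFun {X Y : Type} (R : X → Y → Set P) : Set P :=
  fand (fall fun x => fex fun y => meets (R x y))
    (fall fun x => fall fun y => fall fun y' =>
      fimp (fand (meets (R x y)) (meets (R x y'))) (fground (y = y')))

/-- The relation named by `R` is onto `Y`. -/
def IsOnto {X Y : Type} (R : X → Y → Set P) : Set P :=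
  fall fun y => fex fun x => meets (R x y)

end Language

/-! ### Cardinals and the continuum -/

section Continuum

/-- Every uncountable cardinal of the ground model is a cardinal of the extension: no function
from a set of smaller ground model cardinality `μ` to `ν` is onto. -/
def CardinalsPreserved (P : Type) [Preorder P] : Set P :=
  fall fun μ : Cardinal.{0} => fall fun ν : Cardinal.{0} => fall fun _ : μ < ν =>
    fall fun _ : ℵ₀ < ν =>
      fnot (fex fun R : μ.out → ν.out → Set P => fand (IsFun R) (IsOnto R))

/-- The named functions `x` and `y` from `ℕ` to `ℕ` are equal. -/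
def SameReal {P : Type} [Preorder P] (x y : ℕ → ℕ → Set P) : Set P :=
  fall fun n => fall fun a => fall fun b =>
    fimp (fand (meets (x n a)) (meets (y n b))) (fground (a = b))

/-- There is a map from `Y` onto the set of all functions from `ℕ` to `ℕ`. -/
def ContinuumLe (P : Type) [Preorder P] (Y : Type) : Set P :=
  fex fun E : Y → ℕ → ℕ → Set P =>
    fand (fall fun y => IsFun (E y))
      (fall fun x : ℕ → ℕ → Set P => fimp (IsFun x) (fex fun y => SameReal x (E y)))

/-- The continuum is `κ`: there is a map from `κ` onto the set of all functions from `ℕ` to `ℕ`,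
and there is none from a smaller cardinal. -/
def ContinuumIs (P : Type) [Preorder P] (κ : Cardinal.{0}) : Set P :=
  fand (ContinuumLe P κ.out)
    (fall fun μ : Cardinal.{0} => fall fun _ : μ < κ => fnot (ContinuumLe P μ.out))

end Continuum

/-! ### Martin's Axiom -/

section Martin

/-- The well-ordered set `ω₁` of the countable ordinals (of the ground model). -/
abbrev Om1 : Type := (ℵ₁ : Cardinal.{0}).ord.ToType

variable {P : Type} [Preorder P] {X : Type}

/-- `R x y` (read: `x ≤ y`) is a preorder. -/
def IsPreN (R : X → X → Set P) : Set P :=
  fand (fall fun x => meets (R x x))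
    (fall fun x => fall fun y => fall fun z =>
      fimp (fand (meets (R x y)) (meets (R y z))) (meets (R x z)))

/-- `x` and `y` have a common lower bound. -/
def CompatN (R : X → X → Set P) (x y : X) : Set P :=
  fex fun z => fand (meets (R z x)) (meets (R z y))

/-- `Z` is an unbounded (so an uncountable) subset of `ω₁`. -/
def UnbN (Z : Om1 → Set P) : Set P :=
  fall fun a => fex fun b => fand (fground (a < b)) (meets (Z b))

/-- The countable chain condition: in every family of elements indexed by an uncountable subset
of `ω₁` there are two compatible members with different indices. -/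
def CCCN (R : X → X → Set P) : Set P :=
  fall fun Z : Om1 → Set P => fall fun f : Om1 → X → Set P =>
    fimp (fand (UnbN Z) (IsFun f)) (fex fun a => fex fun b =>
      fand (fground (a ≠ b)) (fand (meets (Z a)) (fand (meets (Z b))
        (fex fun x => fex fun y =>
          fand (meets (f a x)) (fand (meets (f b y)) (CompatN R x y))))))

/-- `D` is a dense subset. -/
def IsDenseN (R : X → X → Set P) (D : X → Set P) : Set P :=
  fall fun x => fex fun y => fand (meets (D y)) (meets (R y x))

/-- `F` is a filter. -/
def IsFilterN (R : X → X → Set P) (F : X → Set P) : Set P :=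
  fand (fex fun x => meets (F x))
    (fand (fall fun x => fall fun y => fimp (fand (meets (F x)) (meets (R x y))) (meets (F y)))
      (fall fun x => fall fun y => fimp (fand (meets (F x)) (meets (F y)))
        (fex fun z => fand (meets (F z)) (fand (meets (R z x)) (meets (R z y))))))

/-- Martin's Axiom for preorders with underlying set `X` and families of dense sets indexed by
`X`. -/
def MartinHolds (P : Type) [Preorder P] (X : Type) : Set P :=
  fall fun R : X → X → Set P => fall fun D : X → X → Set P =>
    fimp (fand (IsPreN R) (fand (CCCN R) (fall fun i => IsDenseN R (D i))))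
      (fex fun F : X → Set P => fand (IsFilterN R F)
        (fall fun i => fex fun x => fand (meets (F x)) (meets (D i x))))

/-- Martin's Axiom for all infinite sets `Y` of size less than `κ`. -/
def MartinBelow (P : Type) [Preorder P] (κ : Cardinal.{0}) : Set P :=
  fall fun Y : Type => fall fun _ : Infinite Y => fall fun _ : #Y < κ => MartinHolds P Y

end Martin

/-! ### Points of `ω*` and nowhere dense P-sets -/

section Cover

variable {P : Type} [Preorder P]

/-- A name for a subset of `ω`. -/
abbrev RName (P : Type) : Type := ℕ → Set P

/-- A name for a family of subsets of `ω`: it sends a name for a subset of `ω` to the set of the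
conditions attached to it. -/
abbrev FName (P : Type) : Type := RName P → Set P

/-- The subset `A` of `ω` is included in `B`. -/
def Sub (A B : RName P) : Set P := fall fun n => fimp (meets (A n)) (meets (B n))

/-- The subsets `A` and `B` of `ω` are equal. -/
def Same (A B : RName P) : Set P := fand (Sub A B) (Sub B A)

/-- All but finitely many elements of `A` belong to `B`. -/
def AlmostSub (A B : RName P) : Set P :=
  fex fun N : ℕ => fall fun n => fall fun _ : N ≤ n => fimp (meets (A n)) (meets (B n))

/-- `A` is an infinite subset of `ω`. -/
def Inf (A : RName P) : Set P :=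
  fall fun N : ℕ => fex fun n => fex fun _ : N ≤ n => meets (A n)

/-- `A` and `B` are disjoint. -/
def Disj (A B : RName P) : Set P := fall fun n => fnot (fand (meets (A n)) (meets (B n)))

/-- The union of `A` and `B` is `ω`. -/
def Cover (A B : RName P) : Set P := fall fun n => disj (meets (A n)) (meets (B n))

/-- The subset `A` of `ω` is a member of the family `F`. -/
def Mem (A : RName P) (F : FName P) : Set P :=
  fex fun B : RName P => fand (Same A B) (meets (F B))

/-- `F` is a filter on `ω` which contains all cofinite sets and no finite set. Such filters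
correspond to the nonempty closed subsets of `ω*`. -/
def IsFilter (F : FName P) : Set P :=
  fand (fex fun A : RName P => Mem A F)
    (fand (fall fun A : RName P => fimp (Mem A F) (Inf A))
      (fand
        (fall fun A : RName P => fall fun B : RName P =>
          fimp (fand (Mem A F) (AlmostSub A B)) (Mem B F))
        (fall fun A : RName P => fall fun B : RName P =>
          fimp (fand (Mem A F) (Mem B F))
            (fex fun C : RName P => fand (Mem C F) (fand (Sub C A) (Sub C B))))))

/-- `U` is a nonprincipal ultrafilter on `ω`, that is, a point of `ω*`. -/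
def IsUltra (U : FName P) : Set P :=
  fand (IsFilter U)
    (fall fun A : RName P => fall fun B : RName P =>
      fimp (Cover A B) (disj (Mem A U) (Mem B U)))

/-- For every sequence of members of `F` there is a member of `F` which is almost included in all
of them: the closed set which corresponds to `F` is a P-set. -/
def IsP (F : FName P) : Set P :=
  fall fun A : ℕ → RName P => fimp (fall fun n => Mem (A n) F)
    (fex fun B : RName P => fand (Mem B F) (fall fun n => AlmostSub B (A n)))

/-- Every infinite subset `A` of `ω` has an infinite subset `B` which is disjoint from some member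
`C` of `F`: the closed set which corresponds to `F` is nowhere dense. -/
def IsNwd (F : FName P) : Set P :=
  fall fun A : RName P => fimp (Inf A)
    (fex fun B : RName P => fex fun C : RName P =>
      fand (Inf B) (fand (Sub B A) (fand (Mem C F) (Disj B C))))

/-- The family `F` is included in `U`. If `U` is an ultrafilter, this says that the point `U`
belongs to the closed set which corresponds to `F`. -/
def Incl (F U : FName P) : Set P := fall fun A : RName P => fimp (Mem A F) (Mem A U)

/-- Every point of `ω*` belongs to a nowhere dense P-set: `ω*` can be covered by nowhere dense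
P-sets. -/
def Covered (P : Type) [Preorder P] : Set P :=
  fall fun U : FName P => fimp (IsUltra U)
    (fex fun F : FName P => fand (IsFilter F) (fand (IsP F) (fand (IsNwd F) (Incl F U))))

end Cover

/-! ### The ordinary notions -/

/-- The countable chain condition: every set of pairwise incompatible elements is countable. -/
def IsCCC (P : Type) [Preorder P] : Prop :=
  ∀ A : Set P, (∀ p ∈ A, ∀ q ∈ A, p ≠ q → ¬ ∃ r : P, r ≤ p ∧ r ≤ q) → A.Countable

/-- Martin's Axiom: for every nonempty preordered set `P` with the countable chain condition and
every family of fewer than `𝔠` dense subsets of `P` there is a filter in `P` which meets each of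
them. -/
def MartinsAxiom : Prop :=
  ∀ (P : Type) [Preorder P] [Nonempty P], IsCCC P →
    ∀ 𝒟 : Set (Set P), #𝒟 < 𝔠 → (∀ D ∈ 𝒟, ∀ p : P, ∃ q ∈ D, q ≤ p) →
      ∃ G : Set P, G.Nonempty ∧ (∀ p ∈ G, ∀ q : P, p ≤ q → q ∈ G) ∧
        (∀ p ∈ G, ∀ q ∈ G, ∃ r ∈ G, r ≤ p ∧ r ≤ q) ∧ ∀ D ∈ 𝒟, (G ∩ D).Nonempty

/-- The remainder `ω* = βω \ ω`: the space of the nonprincipal ultrafilters on `ℕ`. -/
abbrev OmegaStar : Type := {x : Ultrafilter ℕ // ∀ n, x ≠ pure n}

/-- `F` is a P-set: it is closed, and every intersection of countably many open sets which include
`F` has `F` in its interior. -/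
def IsPSet (F : Set OmegaStar) : Prop :=
  IsClosed F ∧ ∀ G : ℕ → Set OmegaStar, (∀ n, IsOpen (G n) ∧ F ⊆ G n) → F ⊆ interior (⋂ n, G n)

/-- `ω*` can be covered by nowhere dense P-sets. -/
def OmegaStarCovered : Prop :=
  ∃ 𝓕 : Set (Set OmegaStar), (∀ F ∈ 𝓕, IsNowhereDense F ∧ IsPSet F) ∧ ⋃₀ 𝓕 = Set.univ

/-- `κ` is a measurable cardinal: it is uncountable, and there is a nonprincipal ultrafilter on a
set of size `κ` which is closed under intersections of fewer than `κ` members. -/
def IsMeasurable (κ : Cardinal.{0}) : Prop :=
  ℵ₀ < κ ∧ ∃ U : Ultrafilter κ.out, (∀ x, {x} ∉ U) ∧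
    ∀ 𝒮 : Set (Set κ.out), #𝒮 < κ → (∀ A ∈ 𝒮, A ∈ U) → ⋂₀ 𝒮 ∈ U

theorem meas_of {κ : Cardinal.{0}} (h : IsMeasurable κ) :
    ∃ U : Ultrafilter κ.out, Pool.Agent.H625.FMA.Meas U := by
  obtain ⟨hκ, U, h1, h2⟩ := h
  refine ⟨U, by rwa [mk_out], h1, fun ι f hι hf => ?_⟩
  rw [mk_out] at hι
  have h3 := h2 (Set.range f) (mk_range_le.trans_lt hι) (by
    rintro _ ⟨i, rfl⟩
    exact hf i)
  rwa [Set.sInter_range] at h3

/-- (1) Let `κ` be a measurable cardinal. Then `ℵ₁ < κ`, and there is a nonempty preordered set `P`
of forcing conditions with the countable chain condition such that every condition forces: all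
cardinals are preserved, the continuum is `κ`, Martin's Axiom holds for all sets of size less than
`κ`, and `ω*` can be covered by nowhere dense P-sets.

(2) For the trivial forcing the last three sentences say that the continuum is `κ`, that Martin's
Axiom holds, and that `ω*` can be covered by nowhere dense P-sets. -/
theorem result :
    (∀ κ : Cardinal.{0}, IsMeasurable κ → (ℵ₁ : Cardinal.{0}) < κ ∧
      ∃ (P : Type) (_ : Preorder P), Nonempty P ∧ IsCCC P ∧ ∀ p : P,
        p ∈ CardinalsPreserved P ∧ p ∈ ContinuumIs P κ ∧ p ∈ MartinBelow P κ ∧ p ∈ Covered P) ∧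
    (∀ (κ : Cardinal.{0}) (p : Unit),
      (p ∈ ContinuumIs Unit κ ∧ p ∈ MartinBelow Unit κ ∧ p ∈ Covered Unit) ↔
        (𝔠 = κ ∧ MartinsAxiom ∧ OmegaStarCovered)) := by
  constructor
  · intro κ hκ
    obtain ⟨U, hU⟩ := meas_of hκ
    refine ⟨Pool.Agent.H625.Tr.aleph_one_lt hκ.1 (by
      have := hU.strongLimit
      rwa [mk_out] at this), ?_⟩
    obtain ⟨P, _, hP, hccc, h⟩ := Pool.Agent.H625.Tr.exists_forcing hU
    rw [mk_out] at h
    exact ⟨P, inferInstance, hP, hccc, fun p => ⟨(h p).2.2.1, (h p).2.1,
      fun Y hY hYκ => (h p).1 Y hY hYκ, (h p).2.2.2⟩⟩
  · intro κ p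
    have h1 : p ∈ ContinuumIs Unit κ ↔ 𝔠 = κ := Pool.Agent.H625.Tr.continuumIs_unit p
    have h2 : p ∈ Covered Unit ↔ OmegaStarCovered :=
      Pool.Agent.TH773.PSet.covered_ground p
    rw [h1, h2]
    refine and_congr_right fun hκ => and_congr_left fun _ => ?_
    subst hκ
    refine Iff.trans ?_ Pool.Agent.H625.Tr.martinsAxiom_iff.symm
    exact forall_congr' fun Y => forall_congr' fun _ => forall_congr' fun _ =>
      Pool.Agent.H625.Tr.martinHolds_unit p

end Pool.Agent.Results.MP_c5d73d_lc.ConsistentFromMeasurable
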