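import Pool.Agent.H625.Cov.Card

/-!
# Under Martin's Axiom and a saturated ideal on `𝔠`, nowhere dense P-sets cover `ω*`

If Martin's Axiom holds and there is a proper `σ`-complete ideal on a set of size `𝔠` which contains
all sets of size less than `𝔠` and for which every family of pairwise disjoint sets outside the
ideal is countable, then the continuum hypothesis fails and `ω*` can be covered by nowhere dense
P-sets. The hypothesis holds after any ccc forcing of Martin's Axiom which makes `𝔠` equal to a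
measurable cardinal of the ground model.
-/

set_option autoImplicit false

namespace Pool.Agent.Results.MP_c5d73d_lc.SaturatedIdeal

open Cardinal

/-- Two elements of a partially ordered set are compatible if they have a common lower bound. -/
def Compatible {P : Type} [PartialOrder P] (p q : P) : Prop := ∃ r, r ≤ p ∧ r ≤ q

/-- The countable chain condition: every set of pairwise incompatible elements is countable. -/
def IsCCC (P : Type) [PartialOrder P] : Prop :=
  ∀ A : Set P, (∀ p ∈ A, ∀ q ∈ A, p ≠ q → ¬ Compatible p q) → A.Countable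

/-- Martin's Axiom: for every nonempty ccc partially ordered set `P` and every family of fewer than
`𝔠` dense subsets of `P` there is a filter in `P` which meets each of them. -/
def MartinsAxiom : Prop :=
  ∀ (P : Type) [PartialOrder P] [Nonempty P], IsCCC P →
    ∀ 𝒟 : Set (Set P), #𝒟 < 𝔠 → (∀ D ∈ 𝒟, ∀ p : P, ∃ q ∈ D, q ≤ p) →
      ∃ G : Set P, G.Nonempty ∧ (∀ p ∈ G, ∀ q : P, p ≤ q → q ∈ G) ∧
        (∀ p ∈ G, ∀ q ∈ G, ∃ r ∈ G, r ≤ p ∧ r ≤ q) ∧ ∀ D ∈ 𝒟, (G ∩ D).Nonempty

/-- `I` is a proper `σ`-complete ideal of subsets of `K` which contains all sets of size less than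
`#K`, and it is `ω₁`-saturated: every family of pairwise disjoint sets outside `I` is countable. -/
structure IsSaturatedIdeal {K : Type} (I : Set (Set K)) : Prop where
  proper : Set.univ ∉ I
  down : ∀ A B : Set K, A ⊆ B → B ∈ I → A ∈ I
  sigma : ∀ s : ℕ → Set K, (∀ n, s n ∈ I) → (⋃ n, s n) ∈ I
  small : ∀ A : Set K, #A < #K → A ∈ I
  saturated : ∀ 𝒟 : Set (Set K), (∀ D ∈ 𝒟, D ∉ I) →
    (∀ D ∈ 𝒟, ∀ E ∈ 𝒟, D ≠ E → Disjoint D E) → 𝒟.Countable

/-- There is such an ideal on a set of size continuum. -/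
def ContinuumCarriesSaturatedIdeal : Prop :=
  ∃ (K : Type) (I : Set (Set K)), #K = 𝔠 ∧ IsSaturatedIdeal I

/-- The remainder `ω* = βω \ ω`: the space of the nonprincipal ultrafilters on `ℕ`, with the
topology induced from the space of all ultrafilters. -/
abbrev OmegaStar : Type := {x : Ultrafilter ℕ // ∀ n, x ≠ pure n}

/-- `F` is a P-set: it is closed, and every intersection of countably many open sets which include
`F` has `F` in its interior. -/
def IsPSet (F : Set OmegaStar) : Prop :=
  IsClosed F ∧ ∀ G : ℕ → Set OmegaStar, (∀ n, IsOpen (G n) ∧ F ⊆ G n) → F ⊆ interior (⋂ n, G n)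

/-- `ω*` can be covered by nowhere dense P-sets. -/
def OmegaStarCovered : Prop :=
  ∃ 𝓕 : Set (Set OmegaStar), (∀ F ∈ 𝓕, IsNowhereDense F ∧ IsPSet F) ∧ ⋃₀ 𝓕 = Set.univ

/-- Martin's Axiom and the existence of an `ω₁`-saturated ideal on `𝔠` imply the failure of the
continuum hypothesis and that `ω*` can be covered by nowhere dense P-sets. -/
theorem result (hMA : MartinsAxiom) (hI : ContinuumCarriesSaturatedIdeal) :
    (ℵ₁ : Cardinal.{0}) < 𝔠 ∧ OmegaStarCovered := by
  obtain ⟨K, I, hK, hI⟩ := hI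
  have hsat : Pool.Agent.H625.Cov.SatIdeal I := by
    refine ⟨hI.small _ ?_, hI.proper, hI.down, hI.sigma, hI.saturated⟩
    rw [mk_eq_zero, hK]
    exact aleph0_pos.trans aleph0_lt_continuum
  have hsmall : ∀ A : Set K, #A < 𝔠 → A ∈ I := fun A hA => hI.small A (hA.trans_eq hK.symm)
  have hMA' : Pool.Agent.H625.Cov.MartinAxiom := by
    intro P _ _ hP 𝒟 h𝒟 hD
    obtain ⟨G, h1, h2, h3, h4⟩ := hMA P hP 𝒟 h𝒟 hD
    exact ⟨G, ⟨h1, h2, h3⟩, h4⟩
  exact ⟨Pool.Agent.H625.Cov.not_ch hsat hK hsmall,
    Pool.Agent.H625.Cov.covered_of_card hsat hK hsmall (Pool.Agent.H625.Cov.pHyp_of_martin hMA')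
      (Pool.Agent.H625.Cov.dHyp_of_martin hMA')⟩

end Pool.Agent.Results.MP_c5d73d_lc.SaturatedIdeal
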